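import Mathlib
import Pool.Agent.H741.RS.Stm

/-!
# The factor is constant
-/

set_option autoImplicit false
open scoped ComplexConjugate

namespace Pool.Agent.H130.RS

open Pool.Agent.H741.RS

namespace LAMN

/-! ### Linear functionals -/

theorem vec_decomp {m : ℕ} (y : V m) : y = ∑ j, y j • EuclideanSpace.single j (1 : ℂ) := by
  have h := (EuclideanSpace.basisFun (Fin m) ℂ).sum_repr y
  conv_lhs => rw [← h]
  refine Finset.sum_congr rfl fun j _ => ?_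
  rw [EuclideanSpace.basisFun_repr, EuclideanSpace.basisFun_apply]

theorem fun_decomp {m : ℕ} (φ : (ℂ × V m) →ₗ[ℂ] ℂ) (Y : ℂ × V m) :
    φ Y = φ (1, 0) * Y.1 + ∑ j, φ (0, EuclideanSpace.single j 1) * Y.2 j := by
  have e1 : Y = Y.1 • ((1 : ℂ), (0 : V m)) + LinearMap.inr ℂ ℂ (V m) Y.2 := by
    ext <;> simp
  have e2 : Y.2 = ∑ j, Y.2 j • EuclideanSpace.single j (1 : ℂ) := vec_decomp Y.2
  have e3 : φ (LinearMap.inr ℂ ℂ (V m) Y.2) = ∑ j, φ (0, EuclideanSpace.single j 1) * Y.2 j := by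
    conv_lhs => rw [e2]
    rw [map_sum, map_sum]
    refine Finset.sum_congr rfl fun j _ => ?_
    rw [map_smul, map_smul, smul_eq_mul, mul_comm]
    rfl
  conv_lhs => rw [e1]
  rw [map_add, map_smul, smul_eq_mul, e3, mul_comm]

/-- the polynomial of a functional -/
noncomputable def pol {n m : ℕ} (φ : (ℂ × V m) →ₗ[ℂ] ℂ) (Q : Fin m → MvPolynomial (Fin n) ℂ) :
    MvPolynomial (Fin n) ℂ :=
  MvPolynomial.C (φ (1, 0)) + ∑ j, MvPolynomial.C (φ (0, EuclideanSpace.single j 1)) * Q j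

theorem ev_pol {n m : ℕ} (φ : (ℂ × V m) →ₗ[ℂ] ℂ) (Q : Fin m → MvPolynomial (Fin n) ℂ) (z : V n) :
    ev (pol φ Q) z = φ (1, WithLp.toLp 2 fun j => ev (Q j) z) := by
  rw [fun_decomp φ]
  unfold ev pol
  rw [map_add, map_sum, MvPolynomial.eval_C, mul_one]
  congr 1
  refine Finset.sum_congr rfl fun j _ => ?_
  rw [map_mul, MvPolynomial.eval_C]

/-- the components -/
noncomputable def cp (N : ℕ) (i : Fin (N + 1)) : (ℂ × V N) →ₗ[ℂ] ℂ :=
  Fin.cases (LinearMap.fst ℂ ℂ (V N))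
    (fun j => (EuclideanSpace.proj j : V N →L[ℂ] ℂ).toLinearMap ∘ₗ LinearMap.snd ℂ ℂ (V N)) i

theorem cp_zero {N : ℕ} (Y : ℂ × V N) : cp N 0 Y = Y.1 := rfl

theorem cp_succ {N : ℕ} (j : Fin N) (Y : ℂ × V N) : cp N j.succ Y = Y.2 j := rfl

theorem cp_ext {N : ℕ} (Y Y' : ℂ × V N) (h : ∀ i, cp N i Y = cp N i Y') : Y = Y' := by
  refine Prod.ext (h 0) ?_
  ext j
  exact h j.succ

theorem norm_le_sum {N : ℕ} (Y : ℂ × V N) : ‖Y‖ ≤ ∑ i, ‖cp N i Y‖ := by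
  rw [Fin.sum_univ_succ, cp_zero]
  have h1 : ‖Y.2‖ ≤ ∑ j, ‖Y.2 j‖ := by
    have e2 : Y.2 = ∑ j, Y.2 j • EuclideanSpace.single j (1 : ℂ) := vec_decomp Y.2
    conv_lhs => rw [e2]
    refine (norm_sum_le _ _).trans (Finset.sum_le_sum fun j _ => ?_)
    rw [norm_smul, PiLp.norm_single, norm_one, mul_one]
  have h2 : ∑ j : Fin N, ‖cp N j.succ Y‖ = ∑ j, ‖Y.2 j‖ := rfl
  rw [h2]
  refine max_le ?_ ?_
  · exact le_add_of_nonneg_right (Finset.sum_nonneg fun j _ => norm_nonneg _)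
  · exact h1.trans (le_add_of_nonneg_left (norm_nonneg _))

theorem norm_cp_le {N : ℕ} (Y : ℂ × V N) (i : Fin (N + 1)) : ‖cp N i Y‖ ≤ ‖Y‖ := by
  refine Fin.cases ?_ (fun j => ?_) i
  · exact norm_fst_le Y
  · rw [cp_succ]
    exact (PiLp.norm_apply_le Y.2 j).trans (norm_snd_le Y)

/-! ### Homogenisation -/

/-- homogenisation -/
noncomputable def hom {n : ℕ} (a : MvPolynomial (Fin n) ℂ) (b : Fin n → MvPolynomial (Fin n) ℂ)
    (d : ℕ) (P : MvPolynomial (Fin n) ℂ) : MvPolynomial (Fin n) ℂ :=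
  ∑ α ∈ P.support, MvPolynomial.C (P.coeff α) * (a ^ (d - ∑ j, α j) * ∏ j, b j ^ α j)

theorem ev_hom {n : ℕ} (a : MvPolynomial (Fin n) ℂ) (b : Fin n → MvPolynomial (Fin n) ℂ)
    (d : ℕ) (P : MvPolynomial (Fin n) ℂ) (z : V n) : ev (hom a b d P) z =
      ∑ α ∈ P.support, P.coeff α * (ev a z ^ (d - ∑ j, α j) * ∏ j, ev (b j) z ^ α j) := by
  unfold ev hom
  rw [map_sum]
  refine Finset.sum_congr rfl fun α _ => ?_
  rw [map_mul, MvPolynomial.eval_C, map_mul, map_pow, map_prod]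
  congr 2
  refine Finset.prod_congr rfl fun j _ => ?_
  rw [map_pow]

theorem deg_le {n : ℕ} (P : MvPolynomial (Fin n) ℂ) (d : ℕ) (hd : P.totalDegree ≤ d)
    (α : Fin n →₀ ℕ) (hα : α ∈ P.support) : ∑ j, α j ≤ d := by
  have h := (MvPolynomial.le_totalDegree hα).trans hd
  rwa [Finsupp.sum_fintype _ _ (fun _ => rfl)] at h

theorem ev_hom_ne {n : ℕ} (a : MvPolynomial (Fin n) ℂ) (b : Fin n → MvPolynomial (Fin n) ℂ)
    (d : ℕ) (P : MvPolynomial (Fin n) ℂ) (z w : V n) (hd : P.totalDegree ≤ d) (ha : ev a z ≠ 0)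
    (hw : ∀ j, w j = (ev a z)⁻¹ * ev (b j) z) : ev (hom a b d P) z = ev a z ^ d * ev P w := by
  rw [ev_hom]
  unfold ev
  rw [MvPolynomial.eval_eq' (fun i => w i) P, Finset.mul_sum]
  refine Finset.sum_congr rfl fun α hα => ?_
  have h1 := deg_le P d hd α hα
  have h2 : ∏ j, w j ^ α j = (ev a z ^ (∑ j, α j))⁻¹ * ∏ j, ev (b j) z ^ α j := by
    rw [← inv_pow, ← Finset.prod_pow_eq_pow_sum, ← Finset.prod_mul_distrib]
    refine Finset.prod_congr rfl fun j _ => ?_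
    rw [hw, mul_pow]
  have h3 : ev a z ^ d = ev a z ^ (d - ∑ j, α j) * ev a z ^ (∑ j, α j) := by
    rw [← pow_add, Nat.sub_add_cancel h1]
  have h4 : ev a z ^ (∑ j, α j) ≠ 0 := pow_ne_zero _ ha
  change _ = ev a z ^ d * (MvPolynomial.coeff α P * ∏ i, w i ^ α i)
  rw [h2, h3]
  change MvPolynomial.coeff α P * (ev a z ^ (d - ∑ j, α j) * ∏ j, ev (b j) z ^ α j) = _
  field_simp

theorem norm_hom_le {n : ℕ} (a : MvPolynomial (Fin n) ℂ) (b : Fin n → MvPolynomial (Fin n) ℂ)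
    (d : ℕ) (P : MvPolynomial (Fin n) ℂ) (z : V n) (M : ℝ) (hd : P.totalDegree ≤ d)
    (ha : ‖ev a z‖ ≤ M) (hb : ∀ j, ‖ev (b j) z‖ ≤ M) :
    ‖ev (hom a b d P) z‖ ≤ (∑ α ∈ P.support, ‖P.coeff α‖) * M ^ d := by
  have hM : 0 ≤ M := (norm_nonneg _).trans ha
  rw [ev_hom, Finset.sum_mul]
  refine (norm_sum_le _ _).trans (Finset.sum_le_sum fun α hα => ?_)
  have h1 := deg_le P d hd α hα
  rw [norm_mul]
  refine mul_le_mul_of_nonneg_left ?_ (norm_nonneg _)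
  rw [norm_mul, norm_pow, norm_prod]
  have h2 : ∏ j, ‖ev (b j) z ^ α j‖ ≤ M ^ (∑ j, α j) := by
    rw [← Finset.prod_pow_eq_pow_sum]
    refine Finset.prod_le_prod (fun j _ => norm_nonneg _) fun j _ => ?_
    rw [norm_pow]
    exact pow_le_pow_left₀ (norm_nonneg _) (hb j) _
  calc ‖ev a z‖ ^ (d - ∑ j, α j) * ∏ j, ‖ev (b j) z ^ α j‖
      ≤ M ^ (d - ∑ j, α j) * M ^ (∑ j, α j) := by
        refine mul_le_mul (pow_le_pow_left₀ (norm_nonneg _) ha _) h2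
          (Finset.prod_nonneg fun j _ => norm_nonneg _) (pow_nonneg hM _)
    _ = M ^ d := by rw [← pow_add, Nat.sub_add_cancel h1]

/-! ### Identity theorem and the theorem of Liouville -/

theorem eq_of_ball {n : ℕ} (P Q : MvPolynomial (Fin n) ℂ) (h : ∀ z ∈ Bn n, ev P z = ev Q z) :
    P = Q := by
  have hinf : ∀ _ : Fin n, (Metric.ball (0 : ℂ) (1 / ((n : ℝ) + 1))).Infinite := by
    intro _
    have : (Metric.ball (0 : ℂ) (1 / ((n : ℝ) + 1))) ∈ nhds (0 : ℂ) :=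
      Metric.ball_mem_nhds _ (by positivity)
    exact infinite_of_mem_nhds 0 this
  refine MvPolynomial.funext_set _ hinf fun x hx => ?_
  refine h (WithLp.toLp 2 x) ?_
  show ‖(WithLp.toLp 2 x : V n)‖ < 1
  have h1 : ∀ j, ‖x j‖ ≤ 1 / ((n : ℝ) + 1) := by
    intro j
    have h2 := hx j (Set.mem_univ _)
    rw [mem_ball_zero_iff] at h2
    exact h2.le
  rw [EuclideanSpace.norm_eq]
  have h2 : ∑ j, ‖(WithLp.toLp 2 x : V n) j‖ ^ 2 ≤ ∑ _j : Fin n, (1 / ((n : ℝ) + 1)) ^ 2 :=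
    Finset.sum_le_sum fun j _ => pow_le_pow_left₀ (norm_nonneg _) (h1 j) 2
  rw [Finset.sum_const, Finset.card_univ, Fintype.card_fin, nsmul_eq_mul] at h2
  have h3 : (n : ℝ) * (1 / ((n : ℝ) + 1)) ^ 2 < 1 := by
    have h4 : (0 : ℝ) < (n : ℝ) + 1 := by positivity
    rw [div_pow, one_pow, mul_one_div, div_lt_one (by positivity)]
    nlinarith
  rw [show (1 : ℝ) = √1 by simp]
  exact Real.sqrt_lt_sqrt (Finset.sum_nonneg fun j _ => by positivity) (lt_of_le_of_lt h2 h3)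

theorem ev_diff {n : ℕ} (P : MvPolynomial (Fin n) ℂ) : Differentiable ℂ (fun z : V n => ev P z) := by
  unfold ev
  induction P using MvPolynomial.induction_on with
  | C a => simp
  | add p q hp hq =>
    simp only [map_add]
    exact hp.add hq
  | mul_X p i hp =>
    simp only [map_mul, MvPolynomial.eval_X]
    refine hp.mul ?_
    exact (EuclideanSpace.proj i : V n →L[ℂ] ℂ).differentiable

theorem const_of_bdd {n : ℕ} (P : MvPolynomial (Fin n) ℂ) (M : ℝ)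
    (h : ∀ z : V n, 1 ≤ ‖z‖ → ‖ev P z‖ ≤ M) (z : V n) : ev P z = ev P 0 := by
  refine (ev_diff P).apply_eq_apply_of_bounded ?_ z 0
  have hc : IsCompact ((fun z : V n => ev P z) '' Metric.closedBall (0 : V n) 1) :=
    (isCompact_closedBall _ _).image (ev_diff P).continuous
  refine (hc.isBounded.union (Metric.isBounded_closedBall (x := (0 : ℂ)) (r := M))).subset ?_
  rintro _ ⟨y, rfl⟩
  rcases le_total 1 ‖y‖ with hy | hy
  · right
    rw [mem_closedBall_zero_iff]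
    exact h y hy
  · left
    exact ⟨y, by rwa [mem_closedBall_zero_iff], rfl⟩

theorem real_bd (x S W K T c : ℝ) (hx : 0 ≤ x) (hS : 0 ≤ S) (hW : 0 < W) (hc : 0 < c)
    (h3 : x * S ≤ T * W) (h4 : c * W ^ 2 ≤ 2 * (K * S) ^ 2) : x ≤ 1 + 2 * (K * T) ^ 2 / c := by
  have h6 : x ^ 2 * (c * W ^ 2) ≤ 2 * (K * T) ^ 2 * W ^ 2 := by
    calc x ^ 2 * (c * W ^ 2) ≤ x ^ 2 * (2 * (K * S) ^ 2) :=
          mul_le_mul_of_nonneg_left h4 (sq_nonneg x)
      _ = 2 * K ^ 2 * (x * S) ^ 2 := by ring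
      _ ≤ 2 * K ^ 2 * (T * W) ^ 2 :=
          mul_le_mul_of_nonneg_left (pow_le_pow_left₀ (mul_nonneg hx hS) h3 2)
            (mul_nonneg zero_le_two (sq_nonneg K))
      _ = 2 * (K * T) ^ 2 * W ^ 2 := by ring
  have h7 : x ^ 2 * c ≤ 2 * (K * T) ^ 2 := by
    have h8 : 0 < W ^ 2 := pow_pos hW 2
    refine le_of_mul_le_mul_right ?_ h8
    linarith
  have h8 : x ^ 2 ≤ 2 * (K * T) ^ 2 / c := by
    rw [le_div_iff₀ hc]
    exact h7
  nlinarith [sq_nonneg (x - 1), sq_nonneg x]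

theorem real_bd2 (y s t : ℝ) (h1 : 1 ≤ y) (h2 : s ≤ y ^ 2) (h3 : y ^ 2 ≤ t) : 1 + s ≤ 2 * t := by
  have h : 1 ≤ y ^ 2 := one_le_pow₀ h1
  linarith

theorem evm {n : ℕ} (P Q : MvPolynomial (Fin n) ℂ) (z : V n) : ev (P * Q) z = ev P z * ev Q z :=
  map_mul _ _ _

theorem ev1 {n : ℕ} (z : V n) : ev (1 : MvPolynomial (Fin n) ℂ) z = 1 := map_one _

theorem exists_lin {n m : ℕ} (A : (ℂ × V n) →ₗ[ℂ] (ℂ × V m)) :
    ∃ a : Fin (m + 1) → MvPolynomial (Fin n) ℂ, ∀ i z, ev (a i) z = cp m i (A (1, z)) := by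
  refine ⟨fun i => pol (cp m i ∘ₗ A) (fun j => MvPolynomial.X j), fun i z => ?_⟩
  have h3 := ev_pol (cp m i ∘ₗ A) (fun j => MvPolynomial.X j) z
  have hX : (WithLp.toLp 2 fun j => ev (MvPolynomial.X j : MvPolynomial (Fin n) ℂ) z) = z := by
    ext j
    exact MvPolynomial.eval_X j
  rw [hX] at h3
  exact h3

/-- the polynomials `R` -/
theorem exists_R {n N : ℕ} (B : (ℂ × V N) →ₗ[ℂ] (ℂ × V N)) (p : Fin N → MvPolynomial (Fin n) ℂ) :
    ∃ R : Fin (N + 1) → MvPolynomial (Fin n) ℂ,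
      ∀ i (z : V n), ev (R i) z = cp N i (B (1, WithLp.toLp 2 fun i => ev (p i) z)) :=
  ⟨fun i => pol (cp N i ∘ₗ B) p, fun i z => ev_pol (cp N i ∘ₗ B) p z⟩

/-- the polynomials `L` -/
theorem exists_L {n N : ℕ} (d : ℕ) (A : (ℂ × V n) →ₗ[ℂ] (ℂ × V n))
    (p : Fin N → MvPolynomial (Fin n) ℂ) (hd : ∀ i, (p i).totalDegree ≤ d) :
    ∃ (L : Fin (N + 1) → MvPolynomial (Fin n) ℂ) (T : ℝ),
      (∀ i (z : V n), (A (1, z)).1 ≠ 0 → ev (L i) z = (A (1, z)).1 ^ d *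
        cp N i (1, WithLp.toLp 2 fun i => ev (p i) (frac A z))) ∧
      ∀ z : V n, 1 ≤ ‖z‖ → ∑ i, ‖ev (L i) z‖ ≤ T * ‖z‖ ^ d := by
  obtain ⟨a, ha⟩ := exists_lin A
  obtain ⟨Pp, hPp, hPd⟩ : ∃ Pp : Fin (N + 1) → MvPolynomial (Fin n) ℂ,
      (∀ i (z : V n), ev (Pp i) z = cp N i (1, WithLp.toLp 2 fun i => ev (p i) z)) ∧
      ∀ i, (Pp i).totalDegree ≤ d := by
    refine ⟨Fin.cons 1 p, fun i z => ?_, fun i => ?_⟩
    · refine Fin.cases ?_ (fun j => ?_) i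
      · exact ev1 z
      · rfl
    · refine Fin.cases ?_ (fun j => ?_) i
      · show (1 : MvPolynomial (Fin n) ℂ).totalDegree ≤ _
        rw [MvPolynomial.totalDegree_one]
        exact Nat.zero_le _
      · exact hd j
  refine ⟨fun i => hom (a 0) (fun j => a j.succ) d (Pp i),
    (∑ i, ∑ α ∈ (Pp i).support, ‖(Pp i).coeff α‖) * ‖LinearMap.toContinuousLinearMap A‖ ^ d,
    fun i z h0 => ?_, fun z hz => ?_⟩
  · have h2 : ev (a 0) z = (A (1, z)).1 := ha 0 z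
    rw [← hPp, ← h2]
    refine ev_hom_ne (a 0) (fun j => a j.succ) d (Pp i) z (frac A z) (hPd i)
      (by rw [h2]; exact h0) fun j => ?_
    rw [h2, ha]
    rfl
  · have hK : ‖A (1, z)‖ ≤ ‖LinearMap.toContinuousLinearMap A‖ * ‖z‖ := by
      refine ((LinearMap.toContinuousLinearMap A).le_opNorm (1, z)).trans ?_
      refine mul_le_mul_of_nonneg_left ?_ (norm_nonneg _)
      refine max_le ?_ le_rfl
      rw [norm_one]
      exact hz
    rw [mul_assoc, ← mul_pow, Finset.sum_mul]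
    refine Finset.sum_le_sum fun i _ => ?_
    refine norm_hom_le (a 0) (fun j => a j.succ) d (Pp i) z _ (hPd i) ?_ fun j => ?_
    · rw [ha]
      exact (norm_cp_le _ _).trans hK
    · rw [ha]
      exact (norm_cp_le _ _).trans hK

/-- no common factor -/
theorem unit_of {n N : ℕ} (φ : (ℂ × V N) →ₗ[ℂ] ℂ) (R : Fin (N + 1) → MvPolynomial (Fin n) ℂ)
    (Y : V n → ℂ × V N) (hR : ∀ i z, ev (R i) z = cp N i (Y z)) (hφ : ∀ z, φ (Y z) = 1)
    (r : MvPolynomial (Fin n) ℂ) (hr : ∀ i, r ∣ R i) : IsUnit r := by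
  have h3 : (1 : MvPolynomial (Fin n) ℂ) = MvPolynomial.C (φ (1, 0)) * R 0 +
      ∑ j, MvPolynomial.C (φ (0, EuclideanSpace.single j 1)) * R (Fin.succ j) := by
    refine eq_of_ball _ _ fun z _ => ?_
    have h4 := fun_decomp φ (Y z)
    rw [hφ] at h4
    rw [ev1]
    refine h4.trans ?_
    have h7 : ∀ P Q : MvPolynomial (Fin n) ℂ, ev (P + Q) z = ev P z + ev Q z :=
      fun P Q => map_add _ _ _
    have h8 : ∀ c : ℂ, ev (MvPolynomial.C c : MvPolynomial (Fin n) ℂ) z = c :=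
      fun c => MvPolynomial.eval_C _
    have h9 : ∀ Q : Fin N → MvPolynomial (Fin n) ℂ, ev (∑ j, Q j) z = ∑ j, ev (Q j) z :=
      fun Q => map_sum _ _ _
    rw [h7, h9, evm, h8, hR]
    refine congrArg₂ (· + ·) rfl (Finset.sum_congr rfl fun j _ => ?_)
    rw [evm, h8, hR]
    rfl
  rw [isUnit_iff_dvd_one, h3]
  exact dvd_add (Dvd.dvd.mul_left (hr 0) _)
    (Finset.dvd_sum fun j _ => Dvd.dvd.mul_left (hr _) _)

/-- the lower bound -/
theorem low {n N : ℕ} (B' : (ℂ × V N) →ₗ[ℂ] (ℂ × V N)) (R : Fin (N + 1) → MvPolynomial (Fin n) ℂ)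
    (F Y : V n → ℂ × V N) (hR : ∀ i z, ev (R i) z = cp N i (Y z)) (hY : ∀ z, B' (Y z) = F z)
    (z : V n) (h1 : (F z).1 = 1) :
    1 + ‖(F z).2‖ ^ 2 ≤ 2 * (‖LinearMap.toContinuousLinearMap B'‖ * ∑ i, ‖ev (R i) z‖) ^ 2 := by
  have h3 : ‖F z‖ ≤ ‖LinearMap.toContinuousLinearMap B'‖ * ∑ i, ‖ev (R i) z‖ := by
    rw [← hY]
    refine ((LinearMap.toContinuousLinearMap B').le_opNorm (Y z)).trans ?_
    refine mul_le_mul_of_nonneg_left ?_ (norm_nonneg _)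
    refine (norm_le_sum _).trans (le_of_eq (Finset.sum_congr rfl fun i _ => ?_))
    rw [hR]
  have h4 : (1 : ℝ) ≤ ‖F z‖ := by
    have h5 := norm_fst_le (F z)
    rwa [h1, norm_one] at h5
  refine real_bd2 ‖F z‖ _ _ h4 ?_ (pow_le_pow_left₀ (norm_nonneg _) h3 2)
  exact pow_le_pow_left₀ (norm_nonneg _) (norm_snd_le _) 2

end LAMN

open LAMN in
theorem t_LAM (h1 : S_UFD) (h2 : S_PRES) : S_LAM := by
  intro n N k f A B c0 _ hc0 hq hdeg hA hB hmap hbig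
  obtain ⟨⟨B', _, hBB, _⟩, hB2⟩ := h2 N B hB
  have hA2 := (h2 n A hA).2
  have hF : ∀ z : V n, f.F z = (1, WithLp.toLp 2 fun i => ev (f.p i) z) := by
    intro z
    unfold RSM.F
    rw [hq, ev1]
  have hmp : ∀ z : V n, f.map z = WithLp.toLp 2 fun i => ev (f.p i) z := by
    intro z
    unfold RSM.map
    rw [hq, ev1]
    simp only [div_one]
  have hfm : ∀ z, f.F z = (1, f.map z) := by
    intro z
    rw [hF, hmp]
  have hPd : ∀ i, (f.p i).totalDegree ≤ k + 1 := by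
    intro j
    rw [← hdeg]
    unfold RSM.deg
    exact le_max_of_le_right (Finset.le_sup (f := fun i => (f.p i).totalDegree) (Finset.mem_univ j))
  obtain ⟨R, hR'⟩ := exists_R B f.p
  have hR : ∀ i z, ev (R i) z = cp N i (B (f.F z)) := by
    intro i z
    rw [hF]
    exact hR' i z
  obtain ⟨L, T, hL', hLb⟩ := exists_L (k + 1) A f.p hPd
  have hL : ∀ i, ∀ z ∈ Bn n, ev (L i) z = (A (1, z)).1 ^ (k + 1) * cp N i (f.F (frac A z)) := by
    intro i z hz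
    rw [hF]
    exact hL' i z (hA2 z hz).1
  have hball : ∀ z ∈ Bn n, f.map z ∈ Bn N := by
    intro z hz
    have h3 := f.maps z hz
    rw [hq, ev1, norm_one, one_pow] at h3
    show ‖f.map z‖ < 1
    rw [hmp, EuclideanSpace.norm_eq, show (1 : ℝ) = √1 by rw [Real.sqrt_one]]
    exact Real.sqrt_lt_sqrt (Finset.sum_nonneg fun j _ => sq_nonneg _) h3
  have hprop : ∀ z ∈ Bn n, B (f.F z) = (B (f.F z)).1 • f.F (frac A z) := by
    intro z hz
    have h3 := (hB2 (f.map z) (hball z hz)).2.2.1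
    rw [← hmap z hz, ← hfm, ← hfm] at h3
    exact h3
  have hRb : ∀ i, ∀ z ∈ Bn n, ev (R i) z = (B (f.F z)).1 * cp N i (f.F (frac A z)) := by
    intro i z hz
    rw [hR]
    conv_lhs => rw [hprop z hz]
    rw [map_smul, smul_eq_mul]
  have hcross : ∀ i j, L i * R j = L j * R i := by
    intro i j
    refine eq_of_ball _ _ fun z hz => ?_
    rw [evm, evm, hL i z hz, hL j z hz, hRb i z hz, hRb j z hz]
    ring
  have hBF : ∀ z, B' (B (f.F z)) = f.F z := fun z => LinearMap.congr_fun hBB (f.F z)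
  have hunit : ∀ r, (∀ i, r ∣ R i) → IsUnit r := by
    intro r hr
    refine unit_of (cp N 0 ∘ₗ B') R (fun z => B (f.F z)) hR (fun z => ?_) r hr
    show (B' (B (f.F z))).1 = 1
    rw [hBF, hF]
  obtain ⟨lam, hlam⟩ := h1 n (N + 1) L R hcross hunit
  have hbd : ∀ z : V n, 1 ≤ ‖z‖ →
      ‖ev lam z‖ ≤ 1 + 2 * (‖LinearMap.toContinuousLinearMap B'‖ * T) ^ 2 / c0 := by
    intro z hz
    have h3 := hLb z hz
    have h5 : ∑ i, ‖ev (L i) z‖ = ‖ev lam z‖ * ∑ i, ‖ev (R i) z‖ := by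
      rw [Finset.mul_sum]
      refine Finset.sum_congr rfl fun i _ => ?_
      rw [hlam i, evm, norm_mul]
    rw [h5] at h3
    have e1 : ‖z‖ ^ (2 * (k + 1)) = (‖z‖ ^ (k + 1)) ^ 2 := by rw [← pow_mul, mul_comm]
    have h6 := low B' R f.F (fun z => B (f.F z)) hR hBF z (by rw [hF])
    have h7 : ‖(f.F z).2‖ ^ 2 = ∑ i, ‖ev (f.p i) z‖ ^ 2 := by
      rw [hF, EuclideanSpace.norm_sq_eq]
    rw [h7] at h6
    have h8 := (hbig z hz).trans h6
    rw [e1] at h8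
    exact real_bd _ _ _ _ _ _ (norm_nonneg _) (Finset.sum_nonneg fun i _ => norm_nonneg _)
      (pow_pos (lt_of_lt_of_le one_pos hz) _) hc0 h3 h8
  refine ⟨ev lam 0, fun z hz => ?_⟩
  refine cp_ext _ _ fun i => ?_
  rw [map_smul, map_smul, smul_eq_mul, smul_eq_mul, ← hL i z hz, ← hR, hlam i, evm,
    const_of_bdd lam _ hbd z]

end Pool.Agent.H130.RS
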